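import Pool.Agent.N463.MI.Stm

/-! Project MI (helper463), part A01: Euler's identity (helper769). -/

set_option autoImplicit false

namespace Pool.Agent.N769.MI

open Pool.Agent.N463.MI

lemma summ {q : ℂ} (hq : ‖q‖ < 1) : Summable fun n : ℕ => ‖q ^ n‖ := by
  simp_rw [norm_pow]
  exact summable_geometric_of_lt_one (norm_nonneg q) hq

lemma ne {q : ℂ} (hq : ‖q‖ < 1) {n : ℕ} (hn : n ≠ 0) (s : ℂ) (hs : ‖s‖ = 1) : 1 + s * q ^ n ≠ 0 := by
  intro h
  have h1 : ‖s * q ^ n‖ = 1 := by
    have : s * q ^ n = -1 := by linear_combination h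
    rw [this, norm_neg, norm_one]
  rw [norm_mul, hs, one_mul, norm_pow] at h1
  have h2 := pow_lt_one₀ (norm_nonneg q) hq hn
  linarith

/-- all products converge -/
lemma mult {q : ℂ} (hq : ‖q‖ < 1) (s : ℂ) (u : ℕ → ℕ) (hu : Function.Injective u) :
    Multipliable fun k : ℕ => 1 + s * q ^ u k := by
  refine multipliable_one_add_of_summable ?_
  simp_rw [norm_mul]
  exact ((summ hq).comp_injective hu).mul_left _

theorem t_A01 : A01 := by
  intro q hq
  have i1 : Function.Injective fun k : ℕ => k + 1 := fun a b h => by simpa using h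
  have i2 : Function.Injective fun k : ℕ => 2 * k + 1 := fun a b h => by
    simp only at h
    omega
  have i3 : Function.Injective fun k : ℕ => 2 * k + 1 + 1 := fun a b h => by
    simp only at h
    omega
  have m1 := mult hq 1 _ i1
  have m2 := mult hq (-1) _ i1
  have m3 := mult hq (-1) _ i2
  have m4 := mult hq (-1) _ i3
  simp only [one_mul] at m1
  simp only [neg_mul, one_mul, ← sub_eq_add_neg] at m2 m3 m4
  have e1 : PP 1 q = ∏' k : ℕ, (1 + q ^ (k + 1)) := by
    unfold PP
    simp only [one_mul]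
  have h1 : (∏' k : ℕ, (1 - q ^ (2 * k + 1))) * (∏' k : ℕ, (1 - q ^ (2 * k + 1 + 1))) =
      ∏' k : ℕ, (1 - q ^ (k + 1)) := tprod_even_mul_odd (f := fun k => 1 - q ^ (k + 1)) m3 m4
  have h2 : (∏' k : ℕ, (1 + q ^ (k + 1))) * (∏' k : ℕ, (1 - q ^ (k + 1))) =
      ∏' k : ℕ, (1 - q ^ (2 * k + 1 + 1)) := by
    rw [← m1.tprod_mul m2]
    refine tprod_congr fun k => ?_
    ring
  have h3 : ∏' k : ℕ, (1 - q ^ (2 * k + 1 + 1)) ≠ 0 := by
    have h4 := tprod_one_add_ne_zero_of_summable (f := fun k : ℕ => -(q ^ (2 * k + 1 + 1)))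
      (fun k => by
        have := ne hq (n := 2 * k + 1 + 1) (by omega) (-1) (by simp)
        rwa [neg_mul, one_mul] at this) (by
        simp_rw [norm_neg]
        exact (summ hq).comp_injective i3)
    simpa only [← sub_eq_add_neg] using h4
  have h4 : (∏' k : ℕ, (1 + q ^ (k + 1))) * (∏' k : ℕ, (1 - q ^ (2 * k + 1))) = 1 := by
    apply mul_right_cancel₀ h3
    rw [one_mul, mul_assoc, h1, h2]
  refine ⟨?_, m3, ?_⟩
  · rw [e1]
    intro h0
    rw [h0, zero_mul] at h4
    exact zero_ne_one h4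
  · rw [e1]
    exact h4

end Pool.Agent.N769.MI
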